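import Mathlib

/-!
The geometric part of the distance number theorem.
-/

set_option autoImplicit false
set_option linter.unusedVariables false

open Complex

namespace Pool.Agent.H729R3

/-- There is a transcendental number on the unit circle. -/
theorem exists_alpha : ∃ α : ℂ, ‖α‖ = 1 ∧ Transcendental ℤ α := by
  by_contra hcon
  push Not at hcon
  have h1 : ((fun t : ℝ => Complex.exp (t * Complex.I)) '' Set.Icc 0 Real.pi).Countable := by
    apply (Algebraic.countable ℤ ℂ).mono
    rintro z ⟨t, ht, rfl⟩
    have := hcon (Complex.exp (t * Complex.I)) (Complex.norm_exp_ofReal_mul_I t)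
    unfold Transcendental at this
    rw [not_not] at this
    exact this
  have h2 : (Set.Icc (0 : ℝ) Real.pi).Countable := by
    apply Set.countable_of_injective_of_countable_image _ h1
    intro a ha b hb hab
    have h3 := congrArg Complex.re hab
    simp only [Complex.exp_ofReal_mul_I_re] at h3
    exact Real.injOn_cos ha hb h3
  have h3 := (Cardinal.le_aleph0_iff_set_countable).2 h2
  rw [Cardinal.mk_Icc_real Real.pi_pos] at h3
  exact absurd h3 (not_le.2 Cardinal.aleph0_lt_continuum)

theorem quad_finite (a4 a2 a1 a0 : ℝ) (h : ¬ (a4 = 0 ∧ a2 = 0 ∧ a1 = 0)) :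
    {t : ℝ | a4 * t ^ 4 + a2 * t ^ 2 + a1 * t + a0 = 0}.Finite := by
  let p : Polynomial ℝ := Polynomial.C a4 * Polynomial.X ^ 4 + Polynomial.C a2 * Polynomial.X ^ 2 +
    Polynomial.C a1 * Polynomial.X + Polynomial.C a0
  have hp : p ≠ 0 := by
    intro h0
    apply h
    have c4 : p.coeff 4 = a4 := by
      simp [p, Polynomial.coeff_X, Polynomial.coeff_C]
    have c2 : p.coeff 2 = a2 := by
      simp [p, Polynomial.coeff_X, Polynomial.coeff_C]
    have c1 : p.coeff 1 = a1 := by
      simp [p, Polynomial.coeff_X, Polynomial.coeff_C]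
    rw [h0, Polynomial.coeff_zero] at c4 c2 c1
    exact ⟨c4.symm, c2.symm, c1.symm⟩
  refine (Polynomial.finite_setOfPred_isRoot hp).subset ?_
  intro t ht
  simp only [Set.mem_setOf_eq] at ht ⊢
  show p.IsRoot t
  simp only [p, Polynomial.IsRoot, Polynomial.eval_add, Polynomial.eval_mul, Polynomial.eval_C,
    Polynomial.eval_pow, Polynomial.eval_X]
  exact ht

/-- Three distinct points of the unit circle are not collinear. -/
theorem circle_not_collinear (A B C : ℂ) (hA : ‖A‖ = 1) (hB : ‖B‖ = 1) (hC : ‖C‖ = 1)
    (hAB : A ≠ B) (hAC : A ≠ C) (hBC : B ≠ C) :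
    ((A - C) * (starRingEnd ℂ) (B - C)).im ≠ 0 := by
  intro h
  have h1 : (starRingEnd ℂ) ((A - C) * (starRingEnd ℂ) (B - C)) =
      (A - C) * (starRingEnd ℂ) (B - C) := Complex.conj_eq_iff_im.2 h
  have nA : A * (starRingEnd ℂ) A = 1 := by
    rw [Complex.mul_conj, Complex.normSq_eq_norm_sq, hA]; simp
  have nB : B * (starRingEnd ℂ) B = 1 := by
    rw [Complex.mul_conj, Complex.normSq_eq_norm_sq, hB]; simp
  have nC : C * (starRingEnd ℂ) C = 1 := by
    rw [Complex.mul_conj, Complex.normSq_eq_norm_sq, hC]; simp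
  rw [map_mul, Complex.conj_conj, map_sub, map_sub] at h1
  set a := (starRingEnd ℂ) A
  set b := (starRingEnd ℂ) B
  set c := (starRingEnd ℂ) C
  -- (a - c) (B - C) = (A - C) (b - c)
  have h2 : A * B * C * ((a - c) * (B - C)) = A * B * C * ((A - C) * (b - c)) := by rw [h1]
  have h3 : A * B * C * ((a - c) * (B - C)) = B * ((C - A) * (B - C)) := by
    have e1 : A * B * C * ((a - c) * (B - C)) =
      B * ((C * (A * a) - A * (C * c)) * (B - C)) := by ring
    rw [e1, nA, nC]; ring
  have h4 : A * B * C * ((A - C) * (b - c)) = A * ((A - C) * (C - B)) := by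
    have e1 : A * B * C * ((A - C) * (b - c)) =
      A * ((A - C) * (C * (B * b) - B * (C * c))) := by ring
    rw [e1, nB, nC]; ring
  rw [h3, h4] at h2
  have h5 : (B - A) * ((C - A) * (B - C)) = 0 := by linear_combination h2
  rcases mul_eq_zero.1 h5 with h6 | h6
  · exact hAB (sub_eq_zero.1 h6).symm
  · rcases mul_eq_zero.1 h6 with h7 | h7
    · exact hAC (sub_eq_zero.1 h7).symm
    · exact hBC (sub_eq_zero.1 h7)

theorem im_of_segment (p q r : ℂ) (h : r ∈ segment ℝ p q) :
    ((p - r) * (starRingEnd ℂ) (q - r)).im = 0 := by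
  obtain ⟨a, b, ha, hb, hab, rfl⟩ := h
  have hb' : b = 1 - a := by linarith
  subst hb'
  simp only [Complex.real_smul, map_sub, map_add, map_mul, Complex.conj_ofReal, Complex.mul_im,
    Complex.sub_re, Complex.sub_im, Complex.add_re, Complex.add_im, Complex.mul_re,
    Complex.ofReal_re, Complex.ofReal_im, Complex.conj_re, Complex.conj_im]
  ring

/-- The abstract placement lemma. -/
theorem placement {V : Type} [Fintype V] (adj : V → V → Prop) (A b : V → ℂ)
    (hA : ∀ v, ‖A v‖ = 1) (hb : ∀ u v, u ≠ v → A u = A v → b u ≠ b v)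
    (hadj : ∀ u v, adj u v → A u ≠ A v) :
    ∃ s : ℂ, (∀ u v, u ≠ v → A u * s + b u ≠ A v * s + b v) ∧
      ∀ u v z, adj u v → z ≠ u → z ≠ v →
        A z * s + b z ∉ segment ℝ (A u * s + b u) (A v * s + b v) := by
  classical
  let F1 : V × V → Set ℝ := fun q => if q.1 = q.2 then ∅ else
    {t : ℝ | A q.1 * (t + t ^ 2 * I) + b q.1 = A q.2 * (t + t ^ 2 * I) + b q.2}
  let F2 : V × V × V → Set ℝ := fun q =>
    if adj q.1 q.2.1 ∧ q.2.2 ≠ q.1 ∧ q.2.2 ≠ q.2.1 then
      {t : ℝ | (((A q.1 * (t + t ^ 2 * I) + b q.1) - (A q.2.2 * (t + t ^ 2 * I) + b q.2.2)) *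
        (starRingEnd ℂ) ((A q.2.1 * (t + t ^ 2 * I) + b q.2.1) -
          (A q.2.2 * (t + t ^ 2 * I) + b q.2.2))).im = 0}
    else ∅
  have hF1 : ∀ q, (F1 q).Finite := by
    rintro ⟨u, v⟩
    simp only [F1]
    split_ifs with huv
    · exact Set.finite_empty
    · by_cases hAA : A u = A v
      · have : {t : ℝ | A u * (t + t ^ 2 * I) + b u = A v * (t + t ^ 2 * I) + b v} = ∅ := by
          ext t
          simp only [Set.mem_setOf_eq, Set.mem_empty_iff_false, iff_false]
          intro h
          rw [hAA] at h
          exact hb u v huv hAA (add_left_cancel h)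
        rw [this]
        exact Set.finite_empty
      · apply Set.Subsingleton.finite
        intro t ht t' ht'
        simp only [Set.mem_setOf_eq] at ht ht'
        have h1 : (A u - A v) * ((t + t ^ 2 * I) - (t' + t' ^ 2 * I)) = 0 := by
          linear_combination ht - ht'
        rcases mul_eq_zero.1 h1 with h2 | h2
        · exact absurd (sub_eq_zero.1 h2) hAA
        · have h3 := congrArg Complex.re h2
          simp only [Complex.sub_re, Complex.add_re, Complex.mul_re, Complex.ofReal_re,
            Complex.I_re, Complex.I_im, mul_zero, Complex.zero_re] at h3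
          have h4 : ((t : ℂ) ^ 2).im = 0 := by rw [← Complex.ofReal_pow]; exact Complex.ofReal_im _
          have h5 : ((t' : ℂ) ^ 2).im = 0 := by rw [← Complex.ofReal_pow]; exact Complex.ofReal_im _
          rw [h4, h5] at h3
          linarith
  have hF2 : ∀ q, (F2 q).Finite := by
    rintro ⟨u, v, z⟩
    simp only [F2]
    split_ifs with hc
    · obtain ⟨huv, hzu, hzv⟩ := hc
      set P := A u - A z with hP
      set Q := A v - A z with hQ
      set p := b u - b z with hp
      set q := b v - b z with hq
      refine (quad_finite (P * (starRingEnd ℂ) Q).im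
        ((P * (starRingEnd ℂ) Q).im + (P * (starRingEnd ℂ) q).re - (p * (starRingEnd ℂ) Q).re)
        ((P * (starRingEnd ℂ) q).im + (p * (starRingEnd ℂ) Q).im)
        (p * (starRingEnd ℂ) q).im ?_).subset ?_
      · rintro ⟨h4, h2, h1⟩
        by_cases hPz : P = 0
        · have hAuz : A u = A z := sub_eq_zero.1 hPz
          have hQne : Q ≠ 0 := by
            intro h
            exact hadj u v huv (hAuz.trans (sub_eq_zero.1 h).symm)
          have hpne : p ≠ 0 := by
            intro h
            exact hb u z hzu.symm hAuz (sub_eq_zero.1 h)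
          rw [hPz] at h2 h1
          simp only [zero_mul, Complex.zero_im, Complex.zero_re, zero_add, zero_sub,
            neg_eq_zero] at h2 h1
          have h0 : p * (starRingEnd ℂ) Q = 0 := Complex.ext h2 h1
          rcases mul_eq_zero.1 h0 with h | h
          · exact hpne h
          · exact hQne ((map_eq_zero _).1 h)
        · by_cases hQz : Q = 0
          · have hAvz : A v = A z := sub_eq_zero.1 hQz
            have hqne : q ≠ 0 := by
              intro h
              exact hb v z hzv.symm hAvz (sub_eq_zero.1 h)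
            rw [hQz] at h2 h1
            simp only [map_zero, mul_zero, Complex.zero_im, Complex.zero_re, zero_add, sub_zero,
              add_zero] at h2 h1
            have h0 : P * (starRingEnd ℂ) q = 0 := Complex.ext h2 h1
            rcases mul_eq_zero.1 h0 with h | h
            · exact hPz h
            · exact hqne ((map_eq_zero _).1 h)
          · exact circle_not_collinear (A u) (A v) (A z) (hA u) (hA v) (hA z) (hadj u v huv)
              (fun h => hPz (sub_eq_zero.2 h)) (fun h => hQz (sub_eq_zero.2 h)) h4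
      · intro t ht
        simp only [Set.mem_setOf_eq] at ht ⊢
        rw [← ht]
        have e1 : (A u * (t + t ^ 2 * I) + b u) - (A z * (t + t ^ 2 * I) + b z) =
          P * (t + t ^ 2 * I) + p := by rw [hP, hp]; ring
        have e2 : (A v * (t + t ^ 2 * I) + b v) - (A z * (t + t ^ 2 * I) + b z) =
          Q * (t + t ^ 2 * I) + q := by rw [hQ, hq]; ring
        rw [e1, e2]
        have ht2r : ((t : ℂ) ^ 2).re = t ^ 2 := by
          rw [← Complex.ofReal_pow]; exact Complex.ofReal_re _
        have ht2i : ((t : ℂ) ^ 2).im = 0 := by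
          rw [← Complex.ofReal_pow]; exact Complex.ofReal_im _
        simp only [map_add, map_mul, Complex.mul_im, Complex.mul_re, Complex.add_re,
          Complex.add_im, Complex.conj_re, Complex.conj_im, Complex.ofReal_re, Complex.ofReal_im,
          Complex.I_re, Complex.I_im, ht2r, ht2i]
        ring
    · exact Set.finite_empty
  have hfin : ((⋃ q, F1 q) ∪ (⋃ q, F2 q)).Finite :=
    (Set.finite_iUnion hF1).union (Set.finite_iUnion hF2)
  obtain ⟨t, -, ht⟩ := (Set.infinite_univ (α := ℝ)).exists_notMem_finite hfin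
  rw [Set.mem_union, Set.mem_iUnion, Set.mem_iUnion] at ht
  push Not at ht
  refine ⟨t + t ^ 2 * I, ?_, ?_⟩
  · intro u v huv h
    apply ht.1 (u, v)
    simp only [F1]
    rw [if_neg huv]
    exact h
  · intro u v z huv hzu hzv h
    apply ht.2 (u, v, z)
    simp only [F2]
    rw [if_pos ⟨huv, hzu, hzv⟩]
    exact im_of_segment _ _ _ h

/-- translation parts of the rigid motions -/
noncomputable def bb (α : ℂ) (w : ℕ) : List ℕ → ℂ
  | [] => 0
  | a :: l => a + α ^ w * bb α w l

theorem bb_append (α : ℂ) (w : ℕ) (l : List ℕ) (a : ℕ) :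
    bb α w (l ++ [a]) = bb α w l + α ^ (w * l.length) * a := by
  induction l with
  | nil => simp [bb]
  | cons b l ih =>
    rw [List.cons_append, bb, bb, ih, List.length_cons]
    ring

/-- the polynomials behind `bb` -/
noncomputable def pb (w : ℕ) : List ℕ → Polynomial ℤ
  | [] => 0
  | a :: l => Polynomial.C (a : ℤ) + Polynomial.X ^ w * pb w l

theorem aeval_pb (α : ℂ) (w : ℕ) (l : List ℕ) : Polynomial.aeval α (pb w l) = bb α w l := by
  induction l with
  | nil => simp [pb, bb]
  | cons a l ih => simp [pb, bb, ih]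

theorem pb_inj (w : ℕ) (hw : 0 < w) : ∀ l l' : List ℕ, l.length = l'.length → pb w l = pb w l' →
    l = l' := by
  intro l
  induction l with
  | nil =>
    intro l' h _
    exact (List.length_eq_zero_iff.1 h.symm).symm
  | cons a l ih =>
    intro l' h hp
    cases l' with
    | nil => exact absurd h (by simp)
    | cons a' l' =>
      have h0 := congrArg (fun p => Polynomial.coeff p 0) hp
      simp only [pb, Polynomial.coeff_add, Polynomial.coeff_C_zero, Polynomial.mul_coeff_zero,
        Polynomial.coeff_X_pow, if_neg hw.ne, zero_mul, add_zero] at h0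
      have ha : a = a' := by exact_mod_cast h0
      subst ha
      simp only [pb] at hp
      have h1 := add_left_cancel hp
      have h2 := mul_left_cancel₀ (pow_ne_zero w Polynomial.X_ne_zero) h1
      rw [ih l' (by simpa using h) h2]

theorem bb_inj (α : ℂ) (hα : Transcendental ℤ α) (w : ℕ) (hw : 0 < w) (l l' : List ℕ)
    (h : l.length = l'.length) (hb : bb α w l = bb α w l') : l = l' := by
  apply pb_inj w hw l l' h
  by_contra hne
  apply hα
  refine ⟨pb w l - pb w l', sub_ne_zero.2 hne, ?_⟩
  rw [map_sub, aeval_pb, aeval_pb, hb, sub_self]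

theorem pow_inj (α : ℂ) (hα : Transcendental ℤ α) (m n : ℕ) (h : α ^ m = α ^ n) : m = n := by
  by_contra hne
  apply hα
  refine ⟨Polynomial.X ^ m - Polynomial.X ^ n, ?_, ?_⟩
  · rw [sub_ne_zero]
    intro h'
    have := congrArg Polynomial.natDegree h'
    rw [Polynomial.natDegree_X_pow, Polynomial.natDegree_X_pow] at this
    exact hne this
  · simp [h]

theorem exp_inj (w : ℕ) (n n' : ℕ) (i i' : Fin w) (h : w * n + i = w * n' + i') :
    n = n' ∧ i = i' := by
  have hw : 0 < w := lt_of_le_of_lt (Nat.zero_le _) i.2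
  have h1 : (w * n + i) / w = n := by
    rw [Nat.mul_add_div hw, Nat.div_eq_of_lt i.2, add_zero]
  have h2 : (w * n' + i') / w = n' := by
    rw [Nat.mul_add_div hw, Nat.div_eq_of_lt i'.2, add_zero]
  have hn : n = n' := by rw [← h1, ← h2, h]
  subst hn
  exact ⟨rfl, Fin.ext (by omega)⟩

end Pool.Agent.H729R3
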