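import Mathlib

/-!
Balanced separators from tree decompositions. The parts `grp` to `treeDec_separator` are copied from
`Pool.Agent.H468R2.Frag.TreeSep`, the part `section tree` from `Pool.Agent.H455R3.Clust.Tree`.
-/

set_option autoImplicit false
set_option linter.unusedSectionVars false
set_option linter.unusedVariables false

open Finset

namespace Pool.Agent.H729R3

def HasTreeDec {V : Type} (adj : V → V → Prop) (t : ℕ) : Prop :=
  ∃ (T : ℕ) (par : Fin (T + 1) → Fin (T + 1)) (bag : Fin (T + 1) → Finset V),
    (∀ i, 0 < i → par i < i) ∧ (∀ i, (bag i).card ≤ t + 1) ∧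
    (∀ v, ∃! i, v ∈ bag i ∧ (i = 0 ∨ v ∉ bag (par i))) ∧
    (∀ u v, adj u v → ∃ i, u ∈ bag i ∧ v ∈ bag i)

namespace TreeSep

/-- The child of `i` whose subtree contains `j` (`none` if there is none). -/
def grp {T : ℕ} (par : Fin (T + 1) → Fin (T + 1)) (i j : Fin (T + 1)) : Option (Fin (T + 1)) :=
  if h : i < j ∧ par j < j then (if par j = i then some j else grp par i (par j)) else none
termination_by j.val
decreasing_by exact h.2

variable {T : ℕ} {par : Fin (T + 1) → Fin (T + 1)}

lemma grp_none {i j : Fin (T + 1)} (h : j ≤ i) : grp par i j = none := by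
  rw [grp, dif_neg]
  rintro ⟨h1, -⟩
  exact absurd h1 (not_lt.2 h)

variable (hpar : ∀ i, 0 < i → par i < i)
include hpar

lemma grp_child {i j : Fin (T + 1)} (h : i < j) (hj : par j = i) : grp par i j = some j := by
  have h0 : (0 : Fin (T + 1)) < j := lt_of_le_of_lt (Fin.zero_le i) h
  rw [grp, dif_pos ⟨h, hpar j h0⟩, if_pos hj]

lemma grp_rec {i j : Fin (T + 1)} (h : i < j) (hj : par j ≠ i) :
    grp par i j = grp par i (par j) := by
  have h0 : (0 : Fin (T + 1)) < j := lt_of_le_of_lt (Fin.zero_le i) h
  rw [grp, dif_pos ⟨h, hpar j h0⟩, if_neg hj]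

lemma grp_zero (j : Fin (T + 1)) : j = 0 ∨ grp par 0 j ≠ none := by
  induction j using WellFoundedLT.induction with
  | _ j ih =>
    by_cases h : j = 0
    · exact Or.inl h
    · right
      have h0 : (0 : Fin (T + 1)) < j := by
        rw [Fin.pos_iff_ne_zero]
        exact h
      by_cases hj : par j = 0
      · rw [grp_child hpar h0 hj]
        simp
      · rw [grp_rec hpar h0 hj]
        rcases ih (par j) (hpar j h0) with h1 | h1
        · exact absurd h1 hj
        · exact h1

lemma lt_of_grp {i c : Fin (T + 1)} (j : Fin (T + 1)) (h : grp par i j = some c) : i < c := by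
  induction j using WellFoundedLT.induction with
  | _ j ih =>
    by_cases hij : i < j
    · have h0 : (0 : Fin (T + 1)) < j := lt_of_le_of_lt (Fin.zero_le i) hij
      by_cases hj : par j = i
      · rw [grp_child hpar hij hj] at h
        rw [← Option.some.inj h]
        exact hij
      · rw [grp_rec hpar hij hj] at h
        exact ih (par j) (hpar j h0) h
    · rw [grp_none (not_lt.1 hij)] at h
      exact absurd h (by simp)

lemma desc_of_grp {i c : Fin (T + 1)} (j : Fin (T + 1)) (h : grp par i j = some c) :
    j = c ∨ grp par c j ≠ none := by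
  induction j using WellFoundedLT.induction with
  | _ j ih =>
    by_cases hij : i < j
    · have h0 : (0 : Fin (T + 1)) < j := lt_of_le_of_lt (Fin.zero_le i) hij
      by_cases hj : par j = i
      · rw [grp_child hpar hij hj] at h
        exact Or.inl (Option.some.inj h)
      · rw [grp_rec hpar hij hj] at h
        right
        rcases ih (par j) (hpar j h0) h with h1 | h1
        · have h2 : c < j := h1 ▸ hpar j h0
          rw [grp_child hpar h2 h1]
          simp
        · have h2 : c < par j := by
            by_contra h3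
            exact h1 (grp_none (not_lt.1 h3))
          rw [grp_rec hpar (h2.trans (hpar j h0)) h2.ne']
          exact h1
    · rw [grp_none (not_lt.1 hij)] at h
      exact absurd h (by simp)

/-- The group is constant on the nodes containing a vertex outside of the bag `i`. -/
lemma grp_eq {V : Type} {bag : Fin (T + 1) → Finset V} {v : V} {top : Fin (T + 1)}
    (htop : ∀ j, v ∈ bag j → j ≠ top → j ≠ 0 ∧ v ∈ bag (par j)) {i : Fin (T + 1)}
    (hi : v ∉ bag i) (j : Fin (T + 1)) (hj : v ∈ bag j) : grp par i j = grp par i top := by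
  induction j using WellFoundedLT.induction with
  | _ j ih =>
    by_cases hjt : j = top
    · rw [hjt]
    · obtain ⟨h0, h1⟩ := htop j hj hjt
      have h0' : (0 : Fin (T + 1)) < j := by
        rw [Fin.pos_iff_ne_zero]
        exact h0
      have h2 := ih (par j) (hpar j h0') h1
      rw [← h2]
      by_cases hij : i < j
      · apply grp_rec hpar hij
        intro h3
        rw [h3] at h1
        exact hi h1
      · rw [grp_none (not_lt.1 hij), grp_none ((hpar j h0').le.trans (not_lt.1 hij))]

omit hpar

/-- Distribution of groups on two sides. -/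
lemma exists_balanced {C : Type} [Fintype C] [DecidableEq C] (w : C → ℕ) (n : ℕ)
    (htot : ∑ c, w c ≤ n) (hw : ∀ c, 2 * w c ≤ n) :
    ∃ P : Finset C, 3 * ∑ c ∈ P, w c ≤ 2 * n ∧ 3 * ∑ c ∈ Pᶜ, w c ≤ 2 * n := by
  obtain ⟨P, hP, hmax⟩ := Finset.exists_max_image
    ((univ : Finset (Finset C)).filter fun P => 3 * ∑ c ∈ P, w c ≤ 2 * n)
    (fun P => ∑ c ∈ P, w c) ⟨∅, by simp⟩
  simp only [mem_filter, mem_univ, true_and] at hP hmax
  refine ⟨P, hP, ?_⟩
  by_contra hcon
  push Not at hcon
  have hsum := Finset.sum_add_sum_compl P w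
  have h1 : 3 * ∑ c ∈ P, w c < n := by omega
  obtain ⟨c, hc, hc0⟩ : ∃ c ∈ Pᶜ, 0 < w c := by
    by_contra h
    push Not at h
    have : ∑ c ∈ Pᶜ, w c = 0 := Finset.sum_eq_zero fun c hc => by
      have := h c hc
      omega
    omega
  have hcP : c ∉ P := by simpa using hc
  by_cases h3 : 3 * w c ≤ n
  · have h4 : ∑ x ∈ insert c P, w x = w c + ∑ x ∈ P, w x := Finset.sum_insert hcP
    have h5 := hmax (insert c P) (by rw [h4]; omega)
    rw [h4] at h5
    omega
  · have h4 : ∑ x ∈ {c}, w x = w c := Finset.sum_singleton _ _
    have h5 := hmax {c} (by rw [h4]; have := hw c; omega)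
    rw [h4] at h5
    omega

end TreeSep

open TreeSep in
/-- Module G1: tree decompositions give balanced separators; `Wt` is the set of vertices that
count. -/
theorem treeDec_separator {V : Type} [Fintype V] [DecidableEq V] (adj : V → V → Prop) (t : ℕ)
    (h : HasTreeDec adj t) (hsymm : ∀ u v, adj u v → adj v u) (Wt A : Finset V) :
    ∃ (S : Finset V) (side : V → Bool), S ⊆ A ∧ S.card ≤ t + 1 ∧
      (∀ u v, u ∈ A → v ∈ A → u ∉ S → v ∉ S → adj u v → side u = side v) ∧
      (∀ c, 3 * ((A ∩ Wt).filter fun v => v ∉ S ∧ side v = c).card ≤ 2 * (A ∩ Wt).card) := by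
  classical
  obtain ⟨T, par, bag, hpar, hcard, huniq, hadj⟩ := h
  set n := (A ∩ Wt).card with hn
  rcases Nat.eq_zero_or_pos n with hn0 | hn0
  · refine ⟨∅, fun _ => true, by simp, by simp, fun _ _ _ _ _ _ _ => rfl, fun c => ?_⟩
    have he : A ∩ Wt = ∅ := Finset.card_eq_zero.1 hn0
    simp [he]
  choose top htop huniq' using huniq
  have htop' : ∀ v j, v ∈ bag j → j ≠ top v → j ≠ 0 ∧ v ∈ bag (par j) := by
    intro v j hj hne
    by_contra hcon
    apply hne
    apply huniq' v j
    refine ⟨hj, ?_⟩
    by_cases h0 : j = 0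
    · exact Or.inl h0
    · right
      intro h1
      exact hcon ⟨h0, h1⟩
  -- weights
  set W : Fin (T + 1) → ℕ := fun i =>
    ((A ∩ Wt).filter fun v => top v = i ∨ grp par i (top v) ≠ none).card with hW
  have hW0 : W 0 = n := by
    simp only [hW]
    rw [Finset.filter_true_of_mem]
    intro v _
    exact grp_zero hpar (top v)
  obtain ⟨i, hi, himax⟩ := Finset.exists_max_image
    ((univ : Finset (Fin (T + 1))).filter fun i => n < 2 * W i) id
    ⟨0, by simp only [mem_filter, mem_univ, true_and]; omega⟩
  simp only [mem_filter, mem_univ, true_and, id] at hi himax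
  set w : Option (Fin (T + 1)) → ℕ := fun c =>
    ((A ∩ Wt).filter fun v => v ∉ bag i ∧ grp par i (top v) = c).card with hw
  have hw2 : ∀ c, 2 * w c ≤ n := by
    intro c
    rcases c with _ | c
    · have h1 : w none + W i ≤ n := by
        simp only [hw, hW, hn]
        rw [← Finset.card_union_of_disjoint]
        · apply Finset.card_le_card
          intro v hv
          rcases Finset.mem_union.1 hv with h | h
          · exact (Finset.mem_filter.1 h).1
          · exact (Finset.mem_filter.1 h).1
        · rw [Finset.disjoint_left]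
          intro v hv hv'
          rw [Finset.mem_filter] at hv hv'
          rcases hv'.2 with h2 | h2
          · exact hv.2.1 (h2 ▸ (htop v).1)
          · exact h2 hv.2.2
      omega
    · by_cases hc : w (some c) = 0
      · omega
      · have hne : ((A ∩ Wt).filter fun v => v ∉ bag i ∧ grp par i (top v) = some c).Nonempty := by
          rw [← Finset.card_pos]
          exact Nat.pos_of_ne_zero hc
        obtain ⟨v, hv⟩ := hne
        have hic : i < c := lt_of_grp hpar (top v) (Finset.mem_filter.1 hv).2.2
        have h1 : w (some c) ≤ W c := by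
          simp only [hw, hW]
          apply Finset.card_le_card
          intro v hv
          rw [Finset.mem_filter] at hv ⊢
          exact ⟨hv.1, desc_of_grp hpar (top v) hv.2.2⟩
        have h2 : ¬ n < 2 * W c := by
          intro h3
          exact absurd (himax c h3) (not_le.2 hic)
        omega
  have hsum : ∀ P : Finset (Option (Fin (T + 1))), ∑ c ∈ P, w c =
      ((A ∩ Wt).filter fun v => v ∉ bag i ∧ grp par i (top v) ∈ P).card := by
    intro P
    rw [Finset.card_eq_sum_card_fiberwise (f := fun v => grp par i (top v)) (t := P)]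
    · refine Finset.sum_congr rfl fun c hc => ?_
      simp only [hw]
      congr 1
      ext v
      simp only [Finset.mem_filter]
      constructor
      · rintro ⟨h1, h2, h3⟩
        exact ⟨⟨h1, h2, h3 ▸ hc⟩, h3⟩
      · rintro ⟨⟨h1, h2, -⟩, h3⟩
        exact ⟨h1, h2, h3⟩
    · intro v hv
      exact (Finset.mem_filter.1 hv).2.2
  have htot : ∑ c, w c ≤ n := by
    rw [hsum]
    exact Finset.card_filter_le _ _
  obtain ⟨P, hP1, hP2⟩ := exists_balanced w n htot hw2
  refine ⟨A ∩ bag i, fun v => decide (grp par i (top v) ∈ P), Finset.inter_subset_left,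
    (Finset.card_le_card Finset.inter_subset_right).trans (hcard i), ?_, ?_⟩
  · intro u v hu hv huS hvS huv
    have hu' : u ∉ bag i := fun h => huS (Finset.mem_inter.2 ⟨hu, h⟩)
    have hv' : v ∉ bag i := fun h => hvS (Finset.mem_inter.2 ⟨hv, h⟩)
    obtain ⟨j, hj1, hj2⟩ := hadj u v huv
    have e1 := grp_eq hpar (htop' u) hu' j hj1
    have e2 := grp_eq hpar (htop' v) hv' j hj2
    simp only [← e1, ← e2]
  · intro c
    have key : ∀ v ∈ A ∩ Wt, (v ∉ A ∩ bag i ↔ v ∉ bag i) := by
      intro v hv
      have : v ∈ A := (Finset.mem_inter.1 hv).1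
      simp [this]
    rcases c with _ | _
    · rw [hsum] at hP2
      refine le_trans (le_of_eq ?_) hP2
      congr 2
      apply Finset.filter_congr
      intro v hv
      rw [key v hv]
      simp
    · rw [hsum] at hP1
      refine le_trans (le_of_eq ?_) hP1
      congr 2
      apply Finset.filter_congr
      intro v hv
      rw [key v hv]
      simp


section tree

variable {ι : Type} {T : SimpleGraph ι} (hT : T.IsTree) (r : ι)

/-- The path from the root. -/
noncomputable def pth (x : ι) : T.Walk r x := (hT.existsUnique_path r x).choose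

theorem pth_isPath (x : ι) : (pth hT r x).IsPath :=
  (hT.existsUnique_path r x).choose_spec.1

theorem pth_unique {x : ι} (p : T.Walk r x) (hp : p.IsPath) : p = pth hT r x :=
  (hT.existsUnique_path r x).choose_spec.2 p hp

theorem pth_adj {x y : ι} (h : T.Adj x y) :
    pth hT r y = (pth hT r x).concat h ∨ pth hT r x = (pth hT r y).concat h.symm := by
  by_cases hx : x ∈ (pth hT r y).support
  · left
    exact hT.isAcyclic.path_concat (pth_isPath hT r x) (pth_isPath hT r y) h hx
  · right
    have := hT.isAcyclic.mem_support_of_ne_mem_support_of_adj_of_isPath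
      (pth_isPath hT r x) (pth_isPath hT r y) h hx
    exact hT.isAcyclic.path_concat (pth_isPath hT r y) (pth_isPath hT r x) h.symm this

/-- Depth. -/
noncomputable def depth (x : ι) : ℕ := (pth hT r x).length

theorem anc_step {x y a : ι} (h : T.Adj x y) (ha : a ∈ (pth hT r x).support)
    (hax : a ≠ x) : a ∈ (pth hT r y).support := by
  rcases pth_adj hT r h with h1 | h1
  · rw [h1, SimpleGraph.Walk.support_concat]
    simp [ha]
  · rw [h1, SimpleGraph.Walk.support_concat] at ha
    simp only [List.concat_eq_append, List.mem_append, List.mem_singleton] at ha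
    rcases ha with h2 | h2
    · exact h2
    · exact absurd h2 hax

theorem depth_le {x a : ι} (ha : a ∈ (pth hT r x).support) :
    depth hT r a ≤ depth hT r x := by
  classical
  have h1 : (pth hT r x).takeUntil a ha = pth hT r a :=
    pth_unique hT r _ ((pth_isPath hT r x).takeUntil ha)
  rw [depth, depth, ← h1]
  exact SimpleGraph.Walk.length_takeUntil_le _ ha

theorem depth_lt {x a : ι} (ha : a ∈ (pth hT r x).support) (hax : a ≠ x) :
    depth hT r a < depth hT r x := by
  classical
  have h1 : (pth hT r x).takeUntil a ha = pth hT r a :=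
    pth_unique hT r _ ((pth_isPath hT r x).takeUntil ha)
  rw [depth, depth, ← h1]
  exact SimpleGraph.Walk.length_takeUntil_lt ha hax

theorem anc_of_connected {C : Set ι} (hC : (T.induce C).Connected) {i j a : ι}
    (hi : i ∈ C) (hj : j ∈ C) (ha : a ∉ C) (hai : a ∈ (pth hT r i).support) :
    a ∈ (pth hT r j).support := by
  have hreach : (T.induce C).Reachable ⟨i, hi⟩ ⟨j, hj⟩ := hC.preconnected _ _
  rw [SimpleGraph.reachable_iff_reflTransGen] at hreach
  have key : ∀ z : C, Relation.ReflTransGen (T.induce C).Adj ⟨i, hi⟩ z →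
      a ∈ (pth hT r z.1).support := by
    intro z hz
    induction hz with
    | refl => exact hai
    | @tail b c _ hbc ih =>
      refine anc_step hT r hbc ih ?_
      rintro rfl
      exact ha b.2
  exact key _ hreach

theorem top_anc {C : Set ι} (hC : (T.induce C).Connected) {i a : ι}
    (hi : i ∈ C) (ha : a ∈ C) (hmin : ∀ j ∈ C, depth hT r a ≤ depth hT r j) :
    a ∈ (pth hT r i).support := by
  have hreach : (T.induce C).Reachable ⟨a, ha⟩ ⟨i, hi⟩ := hC.preconnected _ _
  rw [SimpleGraph.reachable_iff_reflTransGen] at hreach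
  have key : ∀ z : C, Relation.ReflTransGen (T.induce C).Adj ⟨a, ha⟩ z →
      a ∈ (pth hT r z.1).support := by
    intro z hz
    induction hz with
    | refl => exact SimpleGraph.Walk.end_mem_support _
    | @tail b c _ hbc ih =>
      by_cases hab : a = b.1
      · have hadj : T.Adj b.1 c.1 := hbc
        rcases pth_adj hT r hadj with h1 | h1
        · rw [h1, SimpleGraph.Walk.support_concat]
          simp [ih]
        · exfalso
          have h2 := hmin c.1 c.2
          have h3 : depth hT r b.1 = depth hT r c.1 + 1 := by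
            rw [depth, h1, SimpleGraph.Walk.length_concat]
            rfl
          rw [hab, h3] at h2
          omega
      · exact anc_step hT r hbc ih hab
  exact key _ hreach

/-- The key fact on subtrees. -/
theorem top_mem {C D : Set ι} (hC : (T.induce C).Connected) (hD : (T.induce D).Connected)
    {i a b : ι} (hiC : i ∈ C) (hiD : i ∈ D) (ha : a ∈ C) (hb : b ∈ D)
    (hmin : ∀ j ∈ C, depth hT r a ≤ depth hT r j) (hle : depth hT r b ≤ depth hT r a) :
    a ∈ D := by
  by_contra hcon
  have h1 := top_anc hT r hC hiC ha hmin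
  have h2 := anc_of_connected hT r hD hiD hb hcon h1
  have h3 := depth_lt hT r h2 (by rintro rfl; exact hcon hb)
  omega

end tree

/-- From a tree decomposition on a tree to the parent-function form. -/
theorem hasTreeDec_of_tree (k : ℕ) (V : Type) [Fintype V] [Nonempty V] (G : SimpleGraph V)
    (htd : ∃ (ι : Type) (_ : Fintype ι) (T : SimpleGraph ι) (B : ι → Finset V),
        T.IsTree ∧ (∀ i, (B i).card ≤ k + 1) ∧ (∀ v, ∃ i, v ∈ B i) ∧
        (∀ u v, G.Adj u v → ∃ i, u ∈ B i ∧ v ∈ B i) ∧
        (∀ v i j, v ∈ B i → v ∈ B j → ∃ q : T.Walk i j, ∀ x ∈ q.support, v ∈ B x)) :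
    HasTreeDec G.Adj k := by
  classical
  obtain ⟨ι, _, T, B, hT, hBcard, hBcov, hBadj, hBwalk⟩ := htd
  have hBconn : ∀ v : V, (T.induce {i | v ∈ B i}).Connected := by
    intro v
    obtain ⟨i0, hi0⟩ := hBcov v
    haveI : Nonempty ({i | v ∈ B i} : Set ι) := ⟨⟨i0, hi0⟩⟩
    refine SimpleGraph.Connected.mk ?_
    rintro ⟨i, hi⟩ ⟨j, hj⟩
    obtain ⟨q, hq⟩ := hBwalk v i j hi hj
    exact ⟨q.induce {i | v ∈ B i} hq⟩
  obtain ⟨r⟩ := hT.connected.nonempty
  have htop : ∀ v : V, ∃ a : ι, v ∈ B a ∧ ∀ j, v ∈ B j → depth hT r a ≤ depth hT r j := by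
    intro v
    obtain ⟨i, hi⟩ := hBcov v
    obtain ⟨a, ha, hmin⟩ := Finset.exists_min_image (univ.filter (fun j => v ∈ B j))
      (fun j => depth hT r j) ⟨i, by simpa using hi⟩
    refine ⟨a, by simpa using ha, ?_⟩
    intro j hj
    exact hmin j (by simpa using hj)
  choose top htop1 htop2 using htop
  have hfact : ∀ u v i, u ∈ B i → v ∈ B i → depth hT r (top u) ≤ depth hT r (top v) →
      u ∈ B (top v) := by
    intro u v i hu hv hle
    exact top_mem hT r (C := {i | v ∈ B i}) (D := {i | u ∈ B i}) (hBconn v) (hBconn u)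
      (i := i) hv hu (htop1 v) (htop1 u) (fun j hj => htop2 v j hj) hle
  let e := Fintype.equivFin V
  set m := Fintype.card V with hm
  let rk : V → ℕ := fun v => depth hT r (top v) * m + (e v : ℕ)
  have hrk : Function.Injective rk := by
    intro u v huv
    have hu := (e u).2
    have hv := (e v).2
    have h0 : 0 < m := lt_of_le_of_lt (Nat.zero_le _) hu
    have h1 : rk u % m = rk v % m := by rw [huv]
    simp only [rk] at h1
    rw [Nat.mul_comm, Nat.mul_add_mod, Nat.mul_comm, Nat.mul_add_mod, Nat.mod_eq_of_lt hu,
      Nat.mod_eq_of_lt hv] at h1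
    exact e.injective (Fin.ext h1)
  letI : LinearOrder V := LinearOrder.lift' rk hrk
  have hltrk : ∀ u v : V, u < v → rk u < rk v := fun u v h => h
  have hdepth : ∀ u v : V, u < v → depth hT r (top u) ≤ depth hT r (top v) := by
    intro u v huv
    have h1 := hltrk u v huv
    by_contra hcon
    push Not at hcon
    have hu := (e u).2
    have hv := (e v).2
    simp only [rk] at h1
    have h2 : (depth hT r (top v) + 1) * m ≤ depth hT r (top u) * m :=
      Nat.mul_le_mul_right m hcon
    rw [Nat.add_mul, Nat.one_mul] at h2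
    omega
  let A : V → Finset V := fun v => (B (top v)).filter (fun u => u < v)
  have hlt : ∀ u v, u ∈ A v → u < v := by
    intro u v h
    simp only [A, mem_filter] at h
    exact h.2
  have hk : ∀ v, (A v).card ≤ k := by
    intro v
    have hsub : A v ⊆ (B (top v)).erase v := by
      intro u hu
      simp only [A, mem_filter] at hu
      rw [mem_erase]
      exact ⟨hu.2.ne, hu.1⟩
    have h1 := Finset.card_le_card hsub
    rw [Finset.card_erase_of_mem (htop1 v)] at h1
    have := hBcard (top v)
    omega
  have hadj : ∀ u v, G.Adj u v → u < v → u ∈ A v := by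
    intro u v huv hlt'
    obtain ⟨i, hui, hvi⟩ := hBadj u v huv
    simp only [A, mem_filter]
    exact ⟨hfact u v i hui hvi (hdepth u v hlt'), hlt'⟩
  have hcl : ∀ u w v, u ∈ A v → w ∈ A v → u < w → u ∈ A w := by
    intro u w v hu hw huw
    simp only [A, mem_filter] at hu hw ⊢
    exact ⟨hfact u w (top v) hu.1 hw.1 (hdepth u w huw), huw⟩
  -- the parent-function form
  obtain ⟨n, hn⟩ : ∃ n, Fintype.card V = n + 1 :=
    ⟨Fintype.card V - 1, by have := Fintype.card_pos (α := V); omega⟩
  let o : Fin (n + 1) ≃o V := Fintype.orderIsoFinOfCardEq V hn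
  refine ⟨n, fun i => if h : (A (o i)).Nonempty then o.symm ((A (o i)).max' h) else 0,
    fun i => insert (o i) (A (o i)), ?_, ?_, ?_, ?_⟩
  · intro i hi
    by_cases h : (A (o i)).Nonempty
    · simp only [dif_pos h]
      have h1 := hlt _ _ (Finset.max'_mem (A (o i)) h)
      have h2 : o.symm ((A (o i)).max' h) < o.symm (o i) := o.symm.lt_iff_lt.2 h1
      rwa [o.symm_apply_apply] at h2
    · simp only [dif_neg h]
      exact hi
  · intro i
    refine (Finset.card_insert_le _ _).trans ?_
    exact Nat.succ_le_succ (hk _)
  · intro v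
    refine ⟨o.symm v, ⟨?_, ?_⟩, ?_⟩
    · simp
    · by_cases h0 : o.symm v = 0
      · exact Or.inl h0
      · right
        simp only [OrderIso.apply_symm_apply]
        by_cases h : (A v).Nonempty
        · simp only [dif_pos h, OrderIso.apply_symm_apply]
          have h1 := hlt _ _ (Finset.max'_mem (A v) h)
          rw [Finset.mem_insert]
          push Not
          refine ⟨h1.ne', ?_⟩
          intro h2
          exact absurd (hlt _ _ h2) (not_lt.2 h1.le)
        · simp only [dif_neg h]
          rw [Finset.mem_insert]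
          push Not
          have h3 : o 0 < v := by
            have h4 : (0 : Fin (n + 1)) < o.symm v := by
              rw [Fin.pos_iff_ne_zero]; exact h0
            have h5 := o.lt_iff_lt.2 h4
            rwa [o.apply_symm_apply] at h5
          exact ⟨h3.ne', fun h2 => absurd (hlt _ _ h2) (not_lt.2 h3.le)⟩
    · rintro i ⟨hi1, hi2⟩
      by_contra hne
      have hvi : v ≠ o i := by
        intro h
        apply hne
        rw [h, o.symm_apply_apply]
      have hvA : v ∈ A (o i) := by
        rw [Finset.mem_insert] at hi1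
        rcases hi1 with h | h
        · exact absurd h hvi
        · exact h
      have hAne : (A (o i)).Nonempty := ⟨v, hvA⟩
      rcases hi2 with h0 | h0
      · have h1 := hlt _ _ hvA
        have h2 : o.symm v < i := by
          have := o.symm.lt_iff_lt.2 h1
          rwa [o.symm_apply_apply] at this
        rw [h0] at h2
        exact absurd h2 (not_lt.2 (Fin.zero_le _))
      · apply h0
        simp only [dif_pos hAne, OrderIso.apply_symm_apply]
        rw [Finset.mem_insert]
        by_cases hmax : v = (A (o i)).max' hAne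
        · exact Or.inl hmax
        · right
          exact hcl v _ (o i) hvA (Finset.max'_mem _ hAne)
            (lt_of_le_of_ne (Finset.le_max' _ _ hvA) hmax)
  · intro u v huv
    rcases lt_trichotomy u v with h | h | h
    · refine ⟨o.symm v, ?_, ?_⟩
      · simp only [OrderIso.apply_symm_apply]
        exact Finset.mem_insert_of_mem (hadj u v huv h)
      · simp
    · exact absurd (h ▸ huv) (G.loopless.irrefl _)
    · refine ⟨o.symm u, ?_, ?_⟩
      · simp
      · simp only [OrderIso.apply_symm_apply]
        exact Finset.mem_insert_of_mem (hadj v u huv.symm h)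

end Pool.Agent.H729R3
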