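import Mathlib
import Pool.Agent.H729R3.TreeSep

/-!
Tree partitions: a graph of bounded degree and bounded treewidth can be coded by words over a
bounded alphabet so that each word has a bounded fibre and adjacent vertices have equal words or
words of the form `y`, `y ++ [a]`.
-/

set_option autoImplicit false
set_option linter.unusedSectionVars false
set_option linter.unusedVariables false

open Finset

namespace Pool.Agent.H729R3

def Rel (p q : List ℕ) : Prop := p = q ∨ (∃ a, q = p ++ [a]) ∨ (∃ a, p = q ++ [a])

theorem Rel.symm {p q : List ℕ} (h : Rel p q) : Rel q p := by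
  rcases h with h | h | h
  · exact Or.inl h.symm
  · exact Or.inr (Or.inr h)
  · exact Or.inr (Or.inl h)

theorem Rel.cons {p q : List ℕ} (b : ℕ) (h : Rel p q) : Rel (b :: p) (b :: q) := by
  rcases h with h | ⟨a, h⟩ | ⟨a, h⟩
  · exact Or.inl (by rw [h])
  · exact Or.inr (Or.inl ⟨a, by rw [h]; rfl⟩)
  · exact Or.inr (Or.inr ⟨a, by rw [h]; rfl⟩)

/-- shift the first letter -/
def sh (c : ℕ) : List ℕ → List ℕ
  | [] => []
  | a :: l => (a + c) :: l

theorem Rel.sh {p q : List ℕ} (c : ℕ) (h : Rel p q) : Rel (sh c p) (sh c q) := by
  have key : ∀ p q : List ℕ, (∃ a, q = p ++ [a]) → ∃ a, H729R3.sh c q = H729R3.sh c p ++ [a] := by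
    rintro p q ⟨a, rfl⟩
    cases p with
    | nil => exact ⟨a + c, rfl⟩
    | cons b p' => exact ⟨a, rfl⟩
  rcases h with h | h | h
  · exact Or.inl (by rw [h])
  · exact Or.inr (Or.inl (key p q h))
  · exact Or.inr (Or.inr (key q p h))

structure Coding {V : Type} [DecidableEq V] (adj : V → V → Prop) (A X : Finset V)
    (r c w D : ℕ) (x : V → List ℕ) : Prop where
  root : ∀ v ∈ X, x v = []
  rootcard : (A.filter (fun v => x v = [])).card ≤ r
  card : ∀ y, y ≠ [] → (A.filter (fun v => x v = y)).card ≤ w
  lett : ∀ v ∈ A, ∀ a ∈ x v, a < D
  first : ∀ v ∈ A, ∀ a l, x v = a :: l → a < c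
  adj : ∀ u ∈ A, ∀ v ∈ A, adj u v → Rel (x u) (x v)

variable {V : Type} [Fintype V] [DecidableEq V]

theorem exists_coding (adj : V → V → Prop) (hsymm : ∀ u v, adj u v → adj v u) (t ℓ : ℕ) (ht : 1 ≤ t)
    (hdeg : ∀ u : V, ∀ F : Finset V, (∀ v ∈ F, adj u v) → F.card ≤ ℓ)
    (hsep : ∀ Wt A : Finset V, ∃ (S : Finset V) (side : V → Bool), S ⊆ A ∧ S.card ≤ t ∧
      (∀ u v, u ∈ A → v ∈ A → u ∉ S → v ∉ S → adj u v → side u = side v) ∧
      (∀ c, 3 * ((A ∩ Wt).filter fun v => v ∉ S ∧ side v = c).card ≤ 2 * (A ∩ Wt).card))
    (τ M w D : ℕ) (hτ : τ = 3 * t) (hM : M = (ℓ + 1) * τ) (hw : w = τ * 2 ^ M) (hD : D = 2 ^ M) :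
    ∀ (n m : ℕ), m ≤ M → ∀ A : Finset V, A.card ≤ n → ∀ X ⊆ A, X.card ≤ m →
      ∃ x, Coding adj A X (τ * 2 ^ m) (2 ^ m) w D x := by
  classical
  intro n
  induction n using Nat.strong_induction_on with
  | _ n ihn =>
    intro m
    induction m using Nat.strong_induction_on with
    | _ m ihm =>
      intro hmM A hAn X hXA hXm
      by_cases hAe : A = ∅
      · subst hAe
        refine ⟨fun _ => [], ?_, ?_, ?_, ?_, ?_, ?_⟩
        · intro v hv; rfl
        · simp
        · intro y hy; simp
        · intro v hv; exact absurd hv (Finset.notMem_empty _)
        · intro v hv; exact absurd hv (Finset.notMem_empty _)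
        · intro v hv; exact absurd hv (Finset.notMem_empty _)
      by_cases hX : X.card ≤ τ
      · -- base step
        have hex : ∃ X' ⊆ A, X ⊆ X' ∧ X'.Nonempty ∧ X'.card ≤ τ := by
          by_cases hXe : X.Nonempty
          · exact ⟨X, hXA, Finset.Subset.refl _, hXe, hX⟩
          · rw [Finset.not_nonempty_iff_eq_empty] at hXe
            obtain ⟨a, ha⟩ := Finset.nonempty_iff_ne_empty.2 hAe
            refine ⟨{a}, Finset.singleton_subset_iff.2 ha, ?_, Finset.singleton_nonempty _, ?_⟩
            · rw [hXe]; exact Finset.empty_subset _
            · rw [Finset.card_singleton]; omega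
        obtain ⟨X', hX'A, hXX', hX'ne, hX'card⟩ := hex
        set A' := A \ X' with hA'
        set X'' := A'.filter (fun v => ∃ u ∈ X', adj u v) with hX''
        have hA'card : A'.card < n := by
          have h1 : A'.card < A.card := by
            apply Finset.card_lt_card
            refine ⟨Finset.sdiff_subset, ?_⟩
            intro hsub
            obtain ⟨v, hv⟩ := hX'ne
            exact (Finset.mem_sdiff.1 (hsub (hX'A hv))).2 hv
          omega
        have hX''card : X''.card ≤ M := by
          have h1 : X'' ⊆ X'.biUnion (fun u => A'.filter (fun v => adj u v)) := by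
            intro v hv
            simp only [hX'', Finset.mem_filter] at hv
            obtain ⟨hv1, u, hu, huv⟩ := hv
            rw [Finset.mem_biUnion]
            exact ⟨u, hu, Finset.mem_filter.2 ⟨hv1, huv⟩⟩
          have h2 : X''.card ≤ X'.card * ℓ := by
            refine (Finset.card_le_card h1).trans ?_
            apply Finset.card_biUnion_le_card_mul
            intro u hu
            apply hdeg u
            intro v hv
            exact (Finset.mem_filter.1 hv).2
          have h3 : X'.card * ℓ ≤ τ * ℓ := Nat.mul_le_mul_right _ hX'card
          rw [hM]
          nlinarith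
        obtain ⟨x', hx'⟩ := ihn A'.card hA'card M (le_refl _) A' (le_refl _) X''
          (Finset.filter_subset _ _) hX''card
        have hx'card : ∀ y, (A'.filter (fun v => x' v = y)).card ≤ w := by
          intro y
          by_cases hy : y = []
          · rw [hy, hw]; exact hx'.rootcard
          · exact hx'.card y hy
        refine ⟨fun v => if v ∈ X' then [] else 0 :: x' v, ?_, ?_, ?_, ?_, ?_, ?_⟩
        · intro v hv
          simp only [if_pos (hXX' hv)]
        · have h1 : A.filter (fun v => (if v ∈ X' then ([] : List ℕ) else 0 :: x' v) = []) ⊆ X' := by
            intro v hv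
            rw [Finset.mem_filter] at hv
            by_contra hcon
            rw [if_neg hcon] at hv
            exact absurd hv.2 (by simp)
          refine (Finset.card_le_card h1).trans (hX'card.trans ?_)
          exact Nat.le_mul_of_pos_right _ (Nat.pos_of_ne_zero (by positivity))
        · intro y hy
          cases y with
          | nil => exact absurd rfl hy
          | cons a l =>
            refine (Finset.card_le_card ?_).trans (hx'card l)
            intro v hv
            rw [Finset.mem_filter] at hv ⊢
            by_cases hvX : v ∈ X'
            · rw [if_pos hvX] at hv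
              exact absurd hv.2 (by simp)
            · rw [if_neg hvX] at hv
              refine ⟨Finset.mem_sdiff.2 ⟨hv.1, hvX⟩, ?_⟩
              exact (List.cons.inj hv.2).2
        · intro v hv a ha
          by_cases hvX : v ∈ X'
          · simp only [if_pos hvX] at ha
            exact absurd ha (by simp)
          · simp only [if_neg hvX, List.mem_cons] at ha
            rcases ha with rfl | ha
            · rw [hD]; positivity
            · exact hx'.lett v (Finset.mem_sdiff.2 ⟨hv, hvX⟩) a ha
        · intro v hv a l h
          by_cases hvX : v ∈ X'
          · simp only [if_pos hvX] at h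
            exact absurd h (by simp)
          · simp only [if_neg hvX] at h
            rw [← (List.cons.inj h).1]
            positivity
        · have key : ∀ u ∈ A, ∀ v ∈ A, adj u v → u ∈ X' → v ∉ X' →
              Rel (if u ∈ X' then [] else 0 :: x' u) (if v ∈ X' then [] else 0 :: x' v) := by
            intro u hu v hv huv huX hvX
            rw [if_pos huX, if_neg hvX]
            have hvX'' : v ∈ X'' := by
              simp only [hX'', hA', Finset.mem_filter, Finset.mem_sdiff]
              exact ⟨⟨hv, hvX⟩, u, huX, huv⟩
            rw [hx'.root v hvX'']
            exact Or.inr (Or.inl ⟨0, rfl⟩)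
          intro u hu v hv huv
          by_cases huX : u ∈ X' <;> by_cases hvX : v ∈ X'
          · simp only [if_pos huX, if_pos hvX]
            exact Or.inl rfl
          · exact key u hu v hv huv huX hvX
          · exact (key v hv u hu (hsymm _ _ huv) hvX huX).symm
          · simp only [if_neg huX, if_neg hvX]
            exact (hx'.adj u (Finset.mem_sdiff.2 ⟨hu, huX⟩) v (Finset.mem_sdiff.2 ⟨hv, hvX⟩)
              huv).cons 0
      · -- splitting step
        push Not at hX
        obtain ⟨S, side, hSA, hScard, hSsep, hSbal⟩ := hsep X A
        have hAX : A ∩ X = X := Finset.inter_eq_right.2 hXA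
        rw [hAX] at hSbal
        obtain ⟨m', rfl⟩ : ∃ m', m = m' + 1 := ⟨m - 1, by omega⟩
        let Ai : Bool → Finset V := fun b => S ∪ A.filter (fun v => v ∉ S ∧ side v = b)
        let Xi : Bool → Finset V := fun b => S ∪ X.filter (fun v => v ∉ S ∧ side v = b)
        have hAiA : ∀ b, Ai b ⊆ A := fun b =>
          Finset.union_subset hSA (Finset.filter_subset _ _)
        have hXiAi : ∀ b, Xi b ⊆ Ai b := fun b =>
          Finset.union_subset_union (Finset.Subset.refl _)
            (Finset.filter_subset_filter _ hXA)
        have hXicard : ∀ b, (Xi b).card ≤ m' := by
          intro b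
          have h1 : (Xi b).card ≤ S.card + (X.filter (fun v => v ∉ S ∧ side v = b)).card :=
            Finset.card_union_le _ _
          have h2 := hSbal b
          omega
        have hex : ∀ b, ∃ x, Coding adj (Ai b) (Xi b) (τ * 2 ^ m') (2 ^ m') w D x := fun b =>
          ihm m' (Nat.lt_succ_self _) (by omega) (Ai b)
            ((Finset.card_le_card (hAiA b)).trans hAn) (Xi b) (hXiAi b) (hXicard b)
        choose x hx using hex
        have hSx : ∀ b, ∀ v ∈ S, x b v = [] := fun b v hv =>
          (hx b).root v (Finset.mem_union_left _ hv)
        have hmemA : ∀ v ∈ A, v ∉ S → v ∈ Ai (side v) := fun v hv hvS =>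
          Finset.mem_union_right _ (Finset.mem_filter.2 ⟨hv, hvS, rfl⟩)
        have hmemS : ∀ b, ∀ v ∈ S, v ∈ Ai b := fun b v hv => Finset.mem_union_left _ hv
        set c' := 2 ^ m' with hc'
        let y : V → List ℕ := fun v => if side v = true then x true v else sh c' (x false v)
        have hyS : ∀ v ∈ S, y v = [] := by
          intro v hv
          simp only [y]
          split_ifs
          · exact hSx true v hv
          · rw [hSx false v hv]; rfl
        have hpow : 2 ^ (m' + 1) = c' + c' := by rw [hc', pow_succ]; ring
        have hDc : c' + c' ≤ D := by
          rw [← hpow, hD]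
          exact Nat.pow_le_pow_right (by norm_num) hmM
        have hyt : ∀ v, side v = true → y v = x true v := by
          intro v hv; simp only [y]; rw [if_pos hv]
        have hyf : ∀ v, side v = false → y v = sh c' (x false v) := by
          intro v hv; simp only [y]; rw [if_neg (by simp [hv])]
        have hfirst : ∀ v ∈ A, ∀ a l, y v = a :: l → v ∉ S ∧
            ((side v = true ∧ x true v = a :: l ∧ a < c') ∨
             (side v = false ∧ c' ≤ a ∧ a < c' + c' ∧ x false v = (a - c') :: l)) := by
          intro v hv a l h
          have hvS : v ∉ S := by
            intro h'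
            rw [hyS v h'] at h
            exact absurd h (by simp)
          refine ⟨hvS, ?_⟩
          rcases hs : side v with _ | _
          · right
            rw [hyf v hs] at h
            have hmem := hmemA v hv hvS
            rw [hs] at hmem
            cases hxv : x false v with
            | nil => rw [hxv] at h; exact absurd h (by simp [sh])
            | cons b l' =>
              rw [hxv] at h
              simp only [sh, List.cons.injEq] at h
              have hb := (hx false).first v hmem b l' hxv
              refine ⟨rfl, by omega, by omega, ?_⟩
              rw [← h.1, ← h.2, Nat.add_sub_cancel]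
          · left
            rw [hyt v hs] at h
            have hmem := hmemA v hv hvS
            rw [hs] at hmem
            exact ⟨rfl, h, (hx true).first v hmem a l h⟩
        refine ⟨y, ?_, ?_, ?_, ?_, ?_, ?_⟩
        · intro v hv
          by_cases hvS : v ∈ S
          · exact hyS v hvS
          · rcases hs : side v with _ | _
            · rw [hyf v hs, (hx false).root v (Finset.mem_union_right _
                (Finset.mem_filter.2 ⟨hv, hvS, hs⟩))]
              rfl
            · rw [hyt v hs, (hx true).root v (Finset.mem_union_right _
                (Finset.mem_filter.2 ⟨hv, hvS, hs⟩))]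
        · have h1 : A.filter (fun v => y v = []) ⊆
              (Ai true).filter (fun v => x true v = []) ∪
              (Ai false).filter (fun v => x false v = []) := by
            intro v hv
            rw [Finset.mem_filter] at hv
            rw [Finset.mem_union, Finset.mem_filter, Finset.mem_filter]
            by_cases hvS : v ∈ S
            · exact Or.inl ⟨hmemS _ v hvS, hSx true v hvS⟩
            · have hmem := hmemA v hv.1 hvS
              rcases hs : side v with _ | _
              · right
                rw [hs] at hmem
                refine ⟨hmem, ?_⟩
                have := hv.2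
                rw [hyf v hs] at this
                cases hxv : x false v with
                | nil => rfl
                | cons b l' => rw [hxv] at this; exact absurd this (by simp [sh])
              · left
                rw [hs] at hmem
                refine ⟨hmem, ?_⟩
                rw [← hyt v hs]
                exact hv.2
          refine (Finset.card_le_card h1).trans ((Finset.card_union_le _ _).trans ?_)
          have h2 := (hx true).rootcard
          have h3 := (hx false).rootcard
          rw [hpow, Nat.mul_add]
          exact Nat.add_le_add h2 h3
        · intro z hz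
          cases z with
          | nil => exact absurd rfl hz
          | cons a l =>
            by_cases ha : a < c'
            · refine (Finset.card_le_card ?_).trans ((hx true).card (a :: l) (by simp))
              intro v hv
              rw [Finset.mem_filter] at hv ⊢
              obtain ⟨hvS, h | h⟩ := hfirst v hv.1 a l hv.2
              · have hmem := hmemA v hv.1 hvS
                rw [h.1] at hmem
                exact ⟨hmem, h.2.1⟩
              · omega
            · refine (Finset.card_le_card ?_).trans ((hx false).card ((a - c') :: l) (by simp))
              intro v hv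
              rw [Finset.mem_filter] at hv ⊢
              obtain ⟨hvS, h | h⟩ := hfirst v hv.1 a l hv.2
              · omega
              · have hmem := hmemA v hv.1 hvS
                rw [h.1] at hmem
                exact ⟨hmem, h.2.2.2⟩
        · intro v hv a ha
          by_cases hvS : v ∈ S
          · rw [hyS v hvS] at ha
            exact absurd ha (by simp)
          · have hmem := hmemA v hv hvS
            rcases hs : side v with _ | _
            · rw [hs] at hmem
              rw [hyf v hs] at ha
              cases hxv : x false v with
              | nil => rw [hxv] at ha; exact absurd ha (by simp [sh])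
              | cons b l' =>
                rw [hxv] at ha
                simp only [sh, List.mem_cons] at ha
                have hb := (hx false).first v hmem b l' hxv
                rcases ha with rfl | ha
                · omega
                · exact (hx false).lett v hmem a (by rw [hxv]; exact List.mem_cons_of_mem _ ha)
            · rw [hs] at hmem
              rw [hyt v hs] at ha
              exact (hx true).lett v hmem a ha
        · intro v hv a l h
          rw [hpow]
          obtain ⟨hvS, h | h⟩ := hfirst v hv a l h
          · omega
          · omega
        · have key : ∀ b, ∀ u ∈ A, ∀ v ∈ A, adj u v → (u ∈ S ∨ side u = b) → v ∉ S → side v = b →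
              Rel (y u) (y v) := by
            intro b u hu v hv huv hub hvS hvb
            have huA : u ∈ Ai b := by
              by_cases huS : u ∈ S
              · exact hmemS b u huS
              · have := hmemA u hu huS
                rcases hub with h | h
                · exact absurd h huS
                · rwa [h] at this
            have hvA : v ∈ Ai b := by
              have := hmemA v hv hvS
              rwa [hvb] at this
            have hrel := (hx b).adj u huA v hvA huv
            cases b with
            | true =>
              rw [hyt v hvb]
              have : y u = x true u := by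
                by_cases huS : u ∈ S
                · rw [hyS u huS, hSx true u huS]
                · rcases hub with h | h
                  · exact absurd h huS
                  · exact hyt u h
              rw [this]
              exact hrel
            | false =>
              rw [hyf v hvb]
              have : y u = sh c' (x false u) := by
                by_cases huS : u ∈ S
                · rw [hyS u huS, hSx false u huS]; rfl
                · rcases hub with h | h
                  · exact absurd h huS
                  · exact hyf u h
              rw [this]
              exact hrel.sh c'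
          intro u hu v hv huv
          by_cases hvS : v ∈ S
          · by_cases huS : u ∈ S
            · rw [hyS u huS, hyS v hvS]
              exact Or.inl rfl
            · exact (key (side u) v hv u hu (hsymm _ _ huv) (Or.inl hvS) huS rfl).symm
          · by_cases huS : u ∈ S
            · exact key (side v) u hu v hv huv (Or.inl huS) hvS rfl
            · have hs := hSsep u v hu hv huS hvS huv
              exact key (side v) u hu v hv huv (Or.inr hs) hvS rfl

/-- Tree partitions of bounded degree and width. -/
theorem tree_partition (k ℓ : ℕ) : ∃ w D : ℕ, 0 < w ∧ ∀ (V : Type) [Fintype V] (G : SimpleGraph V),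
      (∃ (ι : Type) (_ : Fintype ι) (T : SimpleGraph ι) (B : ι → Finset V),
        T.IsTree ∧ (∀ i, (B i).card ≤ k + 1) ∧ (∀ v, ∃ i, v ∈ B i) ∧
        (∀ u v, G.Adj u v → ∃ i, u ∈ B i ∧ v ∈ B i) ∧
        (∀ v i j, v ∈ B i → v ∈ B j → ∃ q : T.Walk i j, ∀ x ∈ q.support, v ∈ B x)) →
      (∀ v, (G.neighborSet v).ncard ≤ ℓ) →
      ∃ (x : V → List ℕ) (i : V → Fin w), (∀ u v, x u = x v → i u = i v → u = v) ∧
        (∀ v, ∀ a ∈ x v, a < D) ∧ (∀ u v, G.Adj u v → Rel (x u) (x v)) := by
  classical
  set τ := 3 * (k + 1) with hτ
  set M := (ℓ + 1) * τ with hM
  have hwpos : 0 < τ * 2 ^ M := by positivity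
  refine ⟨τ * 2 ^ M, 2 ^ M, hwpos, ?_⟩
  intro V _ G htd hdeg
  rcases isEmpty_or_nonempty V with hV | hV
  · exact ⟨fun v => [], fun v => ⟨0, hwpos⟩, fun u => (hV.false u).elim,
      fun u => (hV.false u).elim, fun u => (hV.false u).elim⟩
  have h1 := hasTreeDec_of_tree k V G htd
  obtain ⟨x, hx⟩ := exists_coding G.Adj (fun u v h => h.symm) (k + 1) ℓ (by omega)
    (by
      intro u F hF
      refine le_trans ?_ (hdeg u)
      rw [← Set.ncard_coe_finset]
      apply Set.ncard_le_ncard
      · intro v hv
        exact hF v hv
      · exact Set.toFinite _)
    (fun Wt A => treeDec_separator G.Adj k h1 (fun u v h => h.symm) Wt A)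
    τ M (τ * 2 ^ M) (2 ^ M) hτ hM rfl rfl (Fintype.card V) M (le_refl _) Finset.univ
    (by rw [Finset.card_univ]) ∅ (Finset.empty_subset _) (by simp)
  have hcard : ∀ y, (Finset.univ.filter (fun v => x v = y)).card ≤ τ * 2 ^ M := by
    intro y
    by_cases hy : y = []
    · rw [hy]; exact hx.rootcard
    · exact hx.card y hy
  let e := Fintype.equivFin V
  -- rank inside the fibre
  let rkf : V → ℕ := fun v => (Finset.univ.filter (fun u => x u = x v ∧ e u < e v)).card
  have hrk : ∀ v, rkf v < τ * 2 ^ M := by
    intro v
    refine lt_of_lt_of_le ?_ (hcard (x v))
    apply Finset.card_lt_card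
    refine ⟨?_, ?_⟩
    · intro u hu
      simp only [Finset.mem_filter, Finset.mem_univ, true_and] at hu ⊢
      exact hu.1
    · intro hsub
      have : v ∈ Finset.univ.filter (fun u => x u = x v ∧ e u < e v) :=
        hsub (by simp)
      simp at this
  have hlt : ∀ u v, x u = x v → e u < e v → rkf u < rkf v := by
    intro u v huv hlt
    apply Finset.card_lt_card
    refine ⟨?_, ?_⟩
    · intro z hz
      simp only [Finset.mem_filter, Finset.mem_univ, true_and] at hz ⊢
      exact ⟨hz.1.trans huv, hz.2.trans hlt⟩
    · intro hsub
      have h2 : u ∈ Finset.univ.filter (fun z => x z = x v ∧ e z < e v) := by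
        simp [huv, hlt]
      have := hsub h2
      simp at this
  refine ⟨x, fun v => ⟨rkf v, hrk v⟩, ?_, ?_, ?_⟩
  · intro u v huv hi
    have hi' : rkf u = rkf v := by
      have := congrArg Fin.val hi
      exact this
    rcases lt_trichotomy (e u) (e v) with h | h | h
    · have := hlt u v huv h
      omega
    · exact e.injective h
    · have := hlt v u huv.symm h
      omega
  · intro v a ha
    exact hx.lett v (Finset.mem_univ _) a ha
  · intro u v huv
    exact hx.adj u (Finset.mem_univ _) v (Finset.mem_univ _) huv

end Pool.Agent.H729R3
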